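import Mathlib
import Pool.Agent.K9h78.TR.PropB

set_option autoImplicit false

/-!
# MP_41bf72_lc: transversals of almost disjoint families of size `ℵ_{ω+1}`
-/

namespace Pool.Agent.Results.MP_41bf72_lc.TransversalsIndependence

open Cardinal Set
open Pool.Agent.K9h78.TR

/-- Let `ℵ₀ ≤ lam < η`, where `η` is a strong limit cardinal of cofinality at most `lam` with
`2 ^ η = η⁺`.  There is a family of `η⁺` sets of cardinality `η⁺`, of degree of disjunction `lam`
and without a `lam⁺`-transversal if and only if there are a stationary set `S ⊆ η⁺` and sets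
`H δ ⊆ δ` (`δ ∈ S`) of more than `lam` ordinals any two of which have fewer than `lam` common
elements; if the approachability property holds at `η⁺`, then there is no such family.  Under GCH
this applies to `η = ℵ_ω`, `lam = ℵ₀`, the case asked for, and then the family exists if and only
if there is a family of sets of `ℵ₁` ordinals below `ℵ_{ω+1}`, any two of which have finitely many
common elements, without property `B`. -/
theorem result :
    (∀ lam η : Cardinal.{0}, ℵ₀ ≤ lam → lam < η → (∀ x < η, (2 : Cardinal.{0}) ^ x < η) →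
      η.ord.cof ≤ lam → (2 : Cardinal.{0}) ^ η = Order.succ η →
      (BadFamily (Order.succ η) lam ↔ StatFamily (Order.succ η) lam) ∧
        (AP (Order.succ η) → ¬ BadFamily (Order.succ η) lam)) ∧
    (GCH →
      (BadFamily (ℵ_ (Ordinal.omega0 + 1)) ℵ₀ ↔ StatFamily (ℵ_ (Ordinal.omega0 + 1)) ℵ₀) ∧
      (BadFamily (ℵ_ (Ordinal.omega0 + 1)) ℵ₀ ↔ UnsplitFamily (ℵ_ (Ordinal.omega0 + 1)) ℵ₀) ∧
      (AP (ℵ_ (Ordinal.omega0 + 1)) → ¬ BadFamily (ℵ_ (Ordinal.omega0 + 1)) ℵ₀)) := by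
  have h : ∀ lam η : Cardinal.{0}, ℵ₀ ≤ lam → lam < η → (∀ x < η, (2 : Cardinal.{0}) ^ x < η) →
      η.ord.cof ≤ lam → (2 : Cardinal.{0}) ^ η = Order.succ η →
      (BadFamily (Order.succ η) lam ↔ StatFamily (Order.succ η) lam) ∧
        (AP (Order.succ η) → ¬ BadFamily (Order.succ η) lam) := by
    intro lam η h1 h2 h3 h4 h5
    obtain ⟨h6, h7⟩ := main h1 h2 h3 h4 h5
    exact ⟨h6, fun hap hb => h7 hap (h6.1 hb)⟩
  refine ⟨h, fun hG => ?_⟩
  have h8 : (ℵ_ (Ordinal.omega0 + 1) : Cardinal.{0}) = Order.succ (ℵ_ Ordinal.omega0) :=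
    (succ_aleph _).symm
  rw [h8]
  have hη : ℵ₀ ≤ (ℵ_ Ordinal.omega0 : Cardinal.{0}) := aleph0_le_aleph _
  have hlt : ℵ₀ < (ℵ_ Ordinal.omega0 : Cardinal.{0}) := by
    rw [← aleph_zero, aleph_lt_aleph]
    exact Ordinal.omega0_pos
  obtain ⟨h9, h10⟩ := h ℵ₀ (ℵ_ Ordinal.omega0) le_rfl hlt (fun x hx => gch_two_power hG hx)
    cof_aleph_omega.le (hG _ hη)
  refine ⟨h9, ⟨fun hb => ?_, fun hu => h9.2 (stat_of_unsplit hG hu)⟩, h10⟩
  obtain ⟨M, θ, hM, hθ, part⟩ := exists_part hη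
  rw [cof_aleph_omega] at hM
  obtain ⟨s⟩ := exists_setup le_rfl hlt (fun x hx => gch_two_power hG hx) (hG _ hη) hM.le θ hθ
    part
  refine unsplit_of_stat le_rfl hlt (hG _ hη) hM.le (fun E hE => ?_) s (h9.1 hb)
  obtain ⟨p, hp⟩ := part E hE
  exact ⟨p, fun m => (hp m).trans_lt (hθ m)⟩

end Pool.Agent.Results.MP_41bf72_lc.TransversalsIndependence
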